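import Mathlib
import Pool.Agent.H.MP_bbbdfa_lc.A

set_option autoImplicit false

namespace Pool.Agent.Results.MP_bbbdfa_lc.Yes

open Cardinal Pool.Agent.H.MP_bbbdfa_lc

theorem result (X : Type) [TopologicalSpace X] [T3Space X] (h : SSH X) (D : Set X)
    (c : IsClosed D) (d : DiscreteTopology D) : #D < bb :=
  hur h c d

end Pool.Agent.Results.MP_bbbdfa_lc.Yes
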